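import Mathlib
import Pool.Agent.H462R2.PiE2

/-- Positive integers `n 0, …, n (r-1)` are *multiplicatively independent*: the only relation
`∏ (n i) ^ (k i) = 1` with integer exponents is the trivial one. -/
def Pool.Agent.Results.MP_ee2255_nt.AlmostAllBases.MulIndep {r : ℕ} (n : Fin r → ℕ) : Prop :=
  ∀ k : Fin r → ℤ, ∏ i, (n i : ℚ) ^ (k i) = 1 → k = 0

open Classical in
/-- (1) For every `N` all but at most `(⌊log₂ N⌋ + 2) ^ 2` of the integers `2 ≤ n ≤ N` have both
`n ^ π` and `n ^ e` transcendental (in particular irrational).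
(2) If `m, n ≥ 2` are multiplicatively independent, `m ^ π` or `n ^ π` is transcendental.
(3) If `l, m, n ≥ 2` are multiplicatively independent, one of `l ^ e, m ^ e, n ^ e` is
transcendental.
(4) Either one of `m ^ e`, `n ^ e` is transcendental for all multiplicatively independent
`m, n ≥ 2`, or, for all algebraic `β`, the numbers `e + β π`, `e (π + β)` and (for `β ≠ 0`)
`exp (β e)` are transcendental. -/
theorem Pool.Agent.Results.MP_ee2255_nt.AlmostAllBases.result :
    (∀ N : ℕ, ((Finset.Icc 2 N).filter (fun n : ℕ =>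
        ¬ (Transcendental ℚ ((n : ℝ) ^ Real.pi) ∧ Transcendental ℚ ((n : ℝ) ^ Real.exp 1)))).card
          ≤ (Nat.log 2 N + 2) ^ 2) ∧
    (∀ m n : ℕ, 2 ≤ m → 2 ≤ n → MulIndep ![m, n] →
      Transcendental ℚ ((m : ℝ) ^ Real.pi) ∨ Transcendental ℚ ((n : ℝ) ^ Real.pi)) ∧
    (∀ l m n : ℕ, 2 ≤ l → 2 ≤ m → 2 ≤ n → MulIndep ![l, m, n] →
      Transcendental ℚ ((l : ℝ) ^ Real.exp 1) ∨ Transcendental ℚ ((m : ℝ) ^ Real.exp 1) ∨
        Transcendental ℚ ((n : ℝ) ^ Real.exp 1)) ∧
    ((∀ m n : ℕ, 2 ≤ m → 2 ≤ n → MulIndep ![m, n] →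
      Transcendental ℚ ((m : ℝ) ^ Real.exp 1) ∨ Transcendental ℚ ((n : ℝ) ^ Real.exp 1)) ∨
    (∀ β : ℂ, IsAlgebraic ℚ β →
      Transcendental ℚ ((Real.exp 1 : ℂ) + β * (Real.pi : ℂ)) ∧
      Transcendental ℚ ((Real.exp 1 : ℂ) * ((Real.pi : ℂ) + β)) ∧
      (β ≠ 0 → Transcendental ℚ (Complex.exp (β * (Real.exp 1 : ℂ)))))) := by
  refine ⟨?_, ?_, ?_, ?_⟩
  · intro N
    have h := Pool.Agent.H462R2.PiE.count N
    refine le_trans (Finset.card_le_card ?_) h
    intro n hn
    rw [Finset.mem_filter] at hn ⊢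
    refine ⟨hn.1, ?_⟩
    have := hn.2
    simp only [Transcendental] at this
    tauto
  · intro m n hm hn hi
    by_contra hcon
    simp only [Transcendental] at hcon
    push Not at hcon
    refine Pool.Agent.H462R2.PiE.two_of_mem Real.pi Pool.Agent.H340R2.LW.transcendental_pi
      Pool.Agent.H462R2.PiE.pi_mem ![m, n] ?_ hi ?_
    · intro i
      fin_cases i
      · exact hm
      · exact hn
    · intro i
      fin_cases i
      · exact hcon.1
      · exact hcon.2
  · intro l m n hl hm hn hi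
    by_contra hcon
    simp only [Transcendental] at hcon
    push Not at hcon
    refine Pool.Agent.H462R2.PiE.three (Real.exp 1) Pool.Agent.H340R2.LW.transcendental_exp_one
      ![l, m, n] ?_ hi ?_
    · intro i
      fin_cases i
      · exact hl
      · exact hm
      · exact hn
    · intro i
      fin_cases i
      · exact hcon.1
      · exact hcon.2.1
      · exact hcon.2.2
  · by_contra hcon
    rw [not_or] at hcon
    obtain ⟨h1, h2⟩ := hcon
    push Not at h1
    obtain ⟨m, n, hm, hn, hi, ha, hb⟩ := h1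
    apply h2
    intro β hβ
    refine Pool.Agent.H462R2.PiE.dich ![m, n] ?_ hi ?_ β hβ
    · intro i
      fin_cases i
      · exact hm
      · exact hn
    · intro i
      fin_cases i
      · simpa [Transcendental] using ha
      · simpa [Transcendental] using hb
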