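import Pool.Agent.H206R2.Tower.Base2

/-!
What the algebraicity of `α ^ π` or of `α ^ e`, for one single real algebraic `α > 0`, `α ≠ 1` (for
instance an integer `n ≥ 2`), would imply.
-/

set_option autoImplicit false

namespace Pool.Agent.Results.MP_ee2255_nt.EachBase

open Real Pool.Agent.H301R2.SSE Pool.Agent.H301R2.Nine Pool.Agent.H206R2.Tower

/-- `x` is log-free: every number `exp (γ x) · α₁ ^ β₁ ⋯ αₙ ^ βₙ` is transcendental, where
`γ ≠ 0` and the `βⱼ` are algebraic and `αⱼ ^ βⱼ = exp (βⱼ ℓⱼ)` with `exp ℓⱼ = αⱼ` algebraic. -/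
def LogFree (x : ℂ) : Prop :=
  ∀ γ : ℂ, IsAlgebraic ℚ γ → γ ≠ 0 → ∀ (n : ℕ) (β ℓ : Fin n → ℂ),
    (∀ j, IsAlgebraic ℚ (β j)) → (∀ j, IsAlgebraic ℚ (Complex.exp (ℓ j))) →
      Transcendental ℚ (Complex.exp (γ * x + ∑ j, β j * ℓ j))

/-- `x` is strongly log-free: every number `exp (γ x + δ) · α₁ ^ β₁ ⋯ αₙ ^ βₙ` is
transcendental, where `γ ≠ 0`, `δ` and the `βⱼ` are algebraic and `αⱼ ^ βⱼ = exp (βⱼ ℓⱼ)` with
`exp ℓⱼ = αⱼ` algebraic. -/
def StronglyLogFree (x : ℂ) : Prop :=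
  ∀ γ δ : ℂ, IsAlgebraic ℚ γ → IsAlgebraic ℚ δ → γ ≠ 0 → ∀ (n : ℕ) (β ℓ : Fin n → ℂ),
    (∀ j, IsAlgebraic ℚ (β j)) → (∀ j, IsAlgebraic ℚ (Complex.exp (ℓ j))) →
      Transcendental ℚ (Complex.exp (γ * x + δ + ∑ j, β j * ℓ j))

theorem mem_of_not {x : ℂ} (h : ¬ LogFree x) : x ∈ LB := by
  unfold LogFree at h
  push Not at h
  obtain ⟨γ, hγ, hγ0, n, β, ℓ, hβ, hℓ, h⟩ := h
  rw [Transcendental, not_not] at h
  have h1 : γ * x + ∑ j, β j * ℓ j ∈ LB := LB_log h
  have h2 : ∑ j, β j * ℓ j ∈ LB := LB.sum_mem (fun j _ => LB_mul (hβ j) (LB_log (hℓ j)))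
  have h3 := LB_mul hγ.inv (LB.sub_mem h1 h2)
  have e : γ⁻¹ * (γ * x + ∑ j, β j * ℓ j - ∑ j, β j * ℓ j) = x := by
    rw [add_sub_cancel_right, inv_mul_cancel_left₀ hγ0]
  rwa [e] at h3

theorem strong_of {x : ℂ} (hx : x ∉ Lt) : StronglyLogFree x := by
  intro γ δ hγ hδ hγ0 n β ℓ hβ hℓ h
  apply hx
  have h' : IsAlgebraic ℚ (Complex.exp (γ * x + δ + ∑ j, β j * ℓ j)) := h
  have h1 : γ * x + δ + ∑ j, β j * ℓ j ∈ Lt := Lt_log h'
  have h2 : ∑ j, β j * ℓ j ∈ Lt := Lt.sum_mem (fun j _ => Lt_mul (hβ j) (Lt_log (hℓ j)))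
  have h3 := Lt_mul hγ.inv (Lt.sub_mem (Lt.sub_mem h1 h2) (Lt_alg hδ))
  have e : γ⁻¹ * (γ * x + δ + ∑ j, β j * ℓ j - ∑ j, β j * ℓ j - δ) = x := by
    rw [add_sub_cancel_right, add_sub_cancel_right, inv_mul_cancel_left₀ hγ0]
  rwa [e] at h3

/-- the first list, `L = log α` -/
noncomputable def four (L : ℝ) : Fin 4 → ℂ :=
  ![Real.exp 1, 1 / Real.exp 1, Real.exp 1 ^ 2 * L, L / Real.exp 1]

/-- the second list, `L = log α` -/
noncomputable def three (L : ℝ) : Fin 3 → ℂ :=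
  ![Real.exp 1 * L ^ 2, (Real.exp 1 * L) ^ 2, 1 / (Real.exp 1 * L)]

theorem card_of_pairs {n : ℕ} (P : Fin n → Prop) (h : ∀ i j, i < j → P i ∨ P j) :
    n - 1 ≤ {i : Fin n | P i}.ncard := by
  classical
  have h1 : {i : Fin n | ¬ P i}.ncard ≤ 1 := by
    rw [Set.ncard_le_one_iff]
    intro i j hi hj
    by_contra hij
    rcases lt_or_gt_of_ne hij with h' | h'
    · rcases h i j h' with h | h
      · exact hi h
      · exact hj h
    · rcases h j i h' with h | h
      · exact hj h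
      · exact hi h
  have h2 : {i : Fin n | P i}.ncard + {i : Fin n | ¬ P i}.ncard = n := by
    have := Set.ncard_add_ncard_compl {i : Fin n | P i}
    rw [Nat.card_eq_fintype_card, Fintype.card_fin] at this
    exact this
  omega

theorem part_e {L : ℝ} (hL0 : L ≠ 0) (hL : IsAlgebraic ℚ (Real.exp L))
    (hP : IsAlgebraic ℚ (Real.exp (Real.exp 1 * L))) :
    3 ≤ {i : Fin 4 | LogFree (four L i)}.ncard ∧ 2 ≤ {i : Fin 3 | LogFree (three L i)}.ncard := by
  have hM : ((Real.exp 1 : ℝ) : ℂ) * (L : ℂ) ∈ LB := by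
    have := real_mem hP
    rwa [Complex.ofReal_mul] at this
  have ht : ¬ IsAlgebraic ℚ ((Real.exp 1 : ℝ) : ℂ) := trC_e
  have hLm : (L : ℂ) ∈ LB := real_mem hL
  have hLC : (L : ℂ) ≠ 0 := by exact_mod_cast hL0
  have eB : (1 / ((Real.exp 1 : ℝ) : ℂ)) = ((Real.exp 1 : ℝ) : ℂ)⁻¹ := one_div _
  have eC : ((Real.exp 1 : ℝ) : ℂ) ^ 2 * L = (Real.exp 1 : ℝ) * ((Real.exp 1 : ℝ) * L) := by ring
  have eD : (L : ℂ) / (Real.exp 1 : ℝ) = ((Real.exp 1 : ℝ) : ℂ)⁻¹ * L := by
    rw [div_eq_mul_inv, mul_comm]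
  have eN : 1 / (((Real.exp 1 : ℝ) : ℂ) * L) = (((Real.exp 1 : ℝ) : ℂ) * L)⁻¹ := one_div _
  constructor
  · refine card_of_pairs (fun i => LogFree (four L i)) ?_
    intro i j hij
    by_contra hcon
    rw [not_or] at hcon
    obtain ⟨h1, h2⟩ := hcon
    have h1 := mem_of_not h1
    have h2 := mem_of_not h2
    fin_cases i <;> fin_cases j <;> simp only [four] at h1 h2 hij <;>
      first
        | exact absurd hij (by decide)
        | skip
    · exact pAB ht hLC hLm hM h1 (by rw [← eB]; exact h2)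
    · exact pAC ht hLC hLm hM h1 (by rw [← eC]; exact h2)
    · exact pAD ht hLC hLm hM h1 (by rw [← eD]; exact h2)
    · exact pBC ht hLC hLm hM (by rw [← eB]; exact h1) (by rw [← eC]; exact h2)
    · exact pBD ht hLC hLm hM (by rw [← eB]; exact h1) (by rw [← eD]; exact h2)
    · exact pCD ht hLC hLm hM (by rw [← eC]; exact h1) (by rw [← eD]; exact h2)
  · refine card_of_pairs (fun i => LogFree (three L i)) ?_
    intro i j hij
    by_contra hcon
    rw [not_or] at hcon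
    obtain ⟨h1, h2⟩ := hcon
    have h1 := mem_of_not h1
    have h2 := mem_of_not h2
    fin_cases i <;> fin_cases j <;> simp only [three] at h1 h2 hij <;>
      first
        | exact absurd hij (by decide)
        | skip
    · exact pKE ht hLC hLm hM h2 h1
    · exact pNE ht hLC hLm hM (by rw [← eN]; exact h2) h1
    · exact pKN ht hLC hM h1 (by rw [← eN]; exact h2)

/-- Let `α > 0`, `α ≠ 1` be real algebraic and `L = log α`. (I) Either `α ^ π` is transcendental, or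
`π²`, all `1/(π - a)` with `a` algebraic, `π² L`, `L/π`, `π L²`, `1/L` and one of `(π L)²`,
`1/(π L)` are strongly log-free, and
so is `π μ` for every logarithm `μ` of an algebraic number that is not an algebraic multiple of `L`.
(II) Either `α ^ e` is transcendental, or at least three of `e, 1/e, e² L, L/e` and at least two of
`e L², (e L)², 1/(e L)` are log-free. -/
theorem result (α : ℝ) (hα : IsAlgebraic ℚ α) (hα0 : 0 < α) (hα1 : α ≠ 1) :
    (Transcendental ℚ (α ^ π) ∨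
      (StronglyLogFree (π ^ 2) ∧ (∀ a : ℂ, IsAlgebraic ℚ a → StronglyLogFree (1 / (π - a))) ∧
        StronglyLogFree (π ^ 2 * Real.log α) ∧ StronglyLogFree (Real.log α / π) ∧
        StronglyLogFree (π * Real.log α ^ 2) ∧ StronglyLogFree (1 / Real.log α) ∧
        (StronglyLogFree ((π * Real.log α) ^ 2) ∨ StronglyLogFree (1 / (π * Real.log α))) ∧
        ∀ μ : ℂ, IsAlgebraic ℚ (Complex.exp μ) →
          (∀ c : ℂ, IsAlgebraic ℚ c → μ ≠ c * Real.log α) → StronglyLogFree (π * μ))) ∧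
    (Transcendental ℚ (α ^ Real.exp 1) ∨
      (3 ≤ {i : Fin 4 | LogFree (four (Real.log α) i)}.ncard ∧
        2 ≤ {i : Fin 3 | LogFree (three (Real.log α) i)}.ncard)) := by
  have hL0 : Real.log α ≠ 0 := by
    intro h
    rcases Real.log_eq_zero.mp h with h | h | h
    · exact hα0.ne' h
    · exact hα1 h
    · linarith
  have hL : IsAlgebraic ℚ (Real.exp (Real.log α)) := by rw [Real.exp_log hα0]; exact hα
  constructor
  · by_cases hw : Transcendental ℚ (α ^ π)
    · exact Or.inl hw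
    right
    rw [Transcendental, not_not, Real.rpow_def_of_pos hα0, mul_comm] at hw
    have hM : (π : ℂ) * (Real.log α : ℂ) ∈ LB := by
      have := real_mem hw
      rwa [Complex.ofReal_mul] at this
    refine ⟨strong_of (b_sq hL0 hL hM), fun a ha => strong_of (b_pole hL0 hL hw ha),
      strong_of (b_sqL hL0 hL hM),
      strong_of (b_div hL0 hL hw), strong_of (b_L2 hL0 hL hM), strong_of (b_Linv hL0 hL hM), ?_, ?_⟩
    · by_cases hK : ((π : ℂ) * (Real.log α : ℂ)) ^ 2 ∈ Lt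
      · exact Or.inr (strong_of (fun hN => b_KN hL0 hM hK hN))
      · exact Or.inl (strong_of hK)
    · intro μ hμ hind
      exact strong_of (b_mu hL0 hL hM hμ hind)
  · by_cases hw : Transcendental ℚ (α ^ Real.exp 1)
    · exact Or.inl hw
    right
    rw [Transcendental, not_not, Real.rpow_def_of_pos hα0, mul_comm] at hw
    exact part_e hL0 hL hw

end Pool.Agent.Results.MP_ee2255_nt.EachBase
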